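import Pool.Agent.H57.SC.All

/-! Paths with isolated vertices are strongly 3-colourable. -/

set_option autoImplicit false

namespace Pool.Agent.H57.SD

open Finset

/-- a path with isolated vertices -/
def padPath (q m : ℕ) : SimpleGraph (Fin q ⊕ Fin m) where
  Adj x y := ∃ u v : Fin q, x = Sum.inl u ∧ y = Sum.inl v ∧ (u.val + 1 = v.val ∨ v.val + 1 = u.val)
  symm := ⟨by
    rintro x y ⟨u, v, hx, hy, h⟩
    exact ⟨v, u, hy, hx, h.symm⟩⟩
  loopless := ⟨by
    rintro x ⟨u, v, hx, hy, h⟩
    rw [hx] at hy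
    have := Sum.inl.inj hy
    subst this
    omega⟩

theorem path3 (q m N : ℕ) (f : Fin q ⊕ Fin m → Fin N) (hf : ∀ i, Nat.card {x // f x = i} = 3) :
    ∃ c : Fin q ⊕ Fin m → Fin 3, (∀ u v : Fin q, (u.val + 1 = v.val ∨ v.val + 1 = u.val) →
      c (Sum.inl u) ≠ c (Sum.inl v)) ∧ ∀ x y, f x = f y → c x = c y → x = y := by
  classical
  obtain ⟨c, hc1, hc2⟩ := Pool.Agent.H57.SC.fs57 (Fin q ⊕ Fin m) (Fin N) (padPath q m) f
    (fun i => by
      have := hf i
      rwa [Nat.card_eq_fintype_card, Fintype.card_subtype] at this)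
    (by
      intro v
      by_contra hcon
      push Not at hcon
      rw [← SimpleGraph.card_neighborFinset_eq_degree, two_lt_card] at hcon
      obtain ⟨a, ha, b, hb, c, hc, h1, h2, h3⟩ := hcon
      rw [SimpleGraph.mem_neighborFinset] at ha hb hc
      obtain ⟨v1, a1, e1, rfl, e3⟩ := ha
      obtain ⟨v2, b1, e4, rfl, e6⟩ := hb
      obtain ⟨v3, c1, e7, rfl, e9⟩ := hc
      have e : v1 = v2 := Sum.inl.inj (e1.symm.trans e4)
      subst e
      have e' : v1 = v3 := Sum.inl.inj (e1.symm.trans e7)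
      subst e'
      have g1 : a1.val ≠ b1.val := fun h => h1 (by rw [Fin.ext h])
      have g2 : a1.val ≠ c1.val := fun h => h2 (by rw [Fin.ext h])
      have g3 : b1.val ≠ c1.val := fun h => h3 (by rw [Fin.ext h])
      omega)
    (by
      intro X hX
      by_cases hr : ∃ i, (Sum.inr i : Fin q ⊕ Fin m) ∈ X
      · obtain ⟨i, hi⟩ := hr
        refine ⟨_, hi, ?_⟩
        rw [filter_false_of_mem]
        · simp
        · rintro y _ ⟨u, v, h, _⟩
          exact Sum.inr_ne_inl h
      · push Not at hr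
        obtain ⟨x, hx, hmax⟩ := exists_max_image X
          (fun x => Sum.elim (fun u : Fin q => u.val) (fun _ => 0) x) hX
        refine ⟨x, hx, ?_⟩
        rw [card_le_one]
        intro y hy z hz
        rw [mem_filter] at hy hz
        have my := hmax y hy.1
        have mz := hmax z hz.1
        obtain ⟨u, v, rfl, rfl, h⟩ := hy.2
        obtain ⟨u', w, h1, rfl, h2⟩ := hz.2
        have e := Sum.inl.inj h1
        subst e
        simp only [Sum.elim_inl] at my mz
        have : v = w := Fin.ext (by omega)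
        rw [this])
  exact ⟨c, fun u v h => hc1 _ _ ⟨u, v, rfl, rfl, h⟩, hc2⟩

end Pool.Agent.H57.SD
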