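import Pool.Agent.H57.SD.Kon

/-! Strong colourings of blow-ups. -/

set_option autoImplicit false

namespace Pool.Agent.H57.SD

open Finset

theorem card_fib {W I : Type} [Fintype W] [DecidableEq I] (f : W → I) (i : I) :
    Nat.card {x // f x = i} = (univ.filter (fun w => f w = i)).card := by
  rw [Nat.card_eq_fintype_card, Fintype.card_subtype]

theorem card_of_fibres {W I : Type} [Fintype W] [Fintype I] [DecidableEq I] (f : W → I) (q : ℕ)
    (hf : ∀ i, (univ.filter (fun w => f w = i)).card = q) : Fintype.card W = Fintype.card I * q := by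
  rw [← Finset.card_univ, card_eq_sum_card_fiberwise (f := f) (t := univ)]
  · rw [sum_const_nat (m := q), Finset.card_univ]
    exact fun y _ => hf y
  · intro w _
    exact mem_coe.2 (mem_univ _)

/-- split blocks of size `t * k` into `k` parts of size `t` -/
theorem split_blocks {W I : Type} [Fintype W] [DecidableEq W] [Fintype I] [DecidableEq I] (F : W → I)
    (t k : ℕ) (hF : ∀ i, (univ.filter (fun w => F w = i)).card = t * k) :
    ∃ b : W → I × Fin k, (∀ w, (b w).1 = F w) ∧
      ∀ p, (univ.filter (fun w => b w = p)).card = t := by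
  classical
  have he : ∀ i, Nonempty ({w // F w = i} ≃ Fin k × Fin t) := by
    intro i
    refine ⟨Fintype.equivOfCardEq ?_⟩
    rw [Fintype.card_subtype, hF i, Fintype.card_prod, Fintype.card_fin, Fintype.card_fin,
      Nat.mul_comm]
  let e : ∀ i, {w // F w = i} ≃ Fin k × Fin t := fun i => (he i).some
  refine ⟨fun w => (F w, (e (F w) ⟨w, rfl⟩).1), fun w => rfl, ?_⟩
  rintro ⟨i, j⟩
  have h1 : univ.filter (fun w => (F w, (e (F w) ⟨w, rfl⟩).1) = (i, j)) =
      univ.image (fun l : Fin t => ((e i).symm (j, l)).1) := by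
    ext w
    simp only [mem_filter, mem_univ, true_and, mem_image, Prod.mk.injEq]
    constructor
    · rintro ⟨h1, h2⟩
      subst h1
      refine ⟨(e (F w) ⟨w, rfl⟩).2, ?_⟩
      have h3 : (j, (e (F w) ⟨w, rfl⟩).2) = e (F w) ⟨w, rfl⟩ := Prod.ext h2.symm rfl
      rw [h3, Equiv.symm_apply_apply]
    · rintro ⟨l, rfl⟩
      have h3 : F ((e i).symm (j, l)).1 = i := ((e i).symm (j, l)).2
      refine ⟨h3, ?_⟩
      have h4 : ∀ i' (h : F ((e i).symm (j, l)).1 = i'), i' = i →
          (e i' ⟨((e i).symm (j, l)).1, h⟩).1 = j := by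
        intro i' h hi
        subst hi
        have h5 : (⟨((e i').symm (j, l)).1, h⟩ : {w // F w = i'}) = (e i').symm (j, l) := Subtype.ext rfl
        rw [h5, Equiv.apply_symm_apply]
      exact h4 _ rfl h3
  rw [h1, card_image_of_injective, Finset.card_univ, Fintype.card_fin]
  intro l l' h
  have h2 := (e i).symm.injective (Subtype.ext h)
  exact (Prod.mk.inj h2).2

/-- the core of the blow-up theorem -/
theorem blow_core {V U : Type} [Fintype V] [Fintype U] (G : V → V → Prop) (H : U → U → Prop)
    (φ : V → U) (t k N NH m mH : ℕ) (f : V ⊕ Fin m → Fin N)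
    (hf : ∀ i, Nat.card {x // f x = i} = t * k) (hfib : ∀ u, Nat.card {v // φ v = u} ≤ t)
    (hN : N ≤ NH) (hcard : Fintype.card U + mH = k * NH)
    (hH : ∀ g : U ⊕ Fin mH → Fin NH, (∀ i, Nat.card {x // g x = i} = k) →
      ∃ c : U ⊕ Fin mH → Fin k, (∀ u v, H u v → c (Sum.inl u) ≠ c (Sum.inl v)) ∧
        ∀ x y, g x = g y → c x = c y → x = y)
    (hG : ∀ u v, G u v → u ≠ v ∧ (φ u = φ v ∨ H (φ u) (φ v))) :
    ∃ c : V ⊕ Fin m → Fin (t * k), (∀ u v, G u v → c (Sum.inl u) ≠ c (Sum.inl v)) ∧
      ∀ x y, f x = f y → c x = c y → x = y := by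
  classical
  -- an index inside the fibres of `φ`
  have hidx : ∀ u, Nonempty ({v // φ v = u} ↪ Fin t) := by
    intro u
    apply Function.Embedding.nonempty_of_card_le
    have := hfib u
    rw [Nat.card_eq_fintype_card] at this
    rwa [Fintype.card_fin]
  let idx : ∀ u, {v // φ v = u} ↪ Fin t := fun u => (hidx u).some
  let X := U ⊕ Fin mH
  let A := (V ⊕ Fin m) ⊕ (Fin (NH - N) × Fin (t * k))
  let I := Fin N ⊕ Fin (NH - N)
  have hW : Fintype.card (V ⊕ Fin m) = N * (t * k) := by
    rw [card_of_fibres f (t * k) (fun i => by rw [← card_fib]; exact hf i), Fintype.card_fin]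
  have hA : Fintype.card A = (univ : Finset (X × Fin t)).card := by
    have h1 : N + (NH - N) = NH := Nat.add_sub_cancel' hN
    rw [Finset.card_univ, Fintype.card_sum, hW, Fintype.card_prod, Fintype.card_prod,
      Fintype.card_fin, Fintype.card_fin, Fintype.card_fin, Fintype.card_sum, Fintype.card_fin, hcard,
      ← Nat.add_mul, h1]
    ring
  by_cases hne : Nonempty (X × Fin t)
  swap
  · rw [not_nonempty_iff] at hne
    have hA0 : IsEmpty A := by
      rw [← Fintype.card_eq_zero_iff, hA, Finset.card_univ, Fintype.card_eq_zero_iff]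
      exact hne
    have hz : ∀ w : V ⊕ Fin m, False := fun w => hA0.false (Sum.inl w)
    exact ⟨fun w => (hz w).elim, fun u => (hz (Sum.inl u)).elim, fun x => (hz x).elim⟩
  obtain ⟨p0⟩ := hne
  let ψ : A → X × Fin t := Sum.elim (Sum.elim (fun v => (Sum.inl (φ v), idx (φ v) ⟨v, rfl⟩))
    (fun _ => p0)) (fun _ => p0)
  let S : Finset A := univ.image (fun v : V => (Sum.inl (Sum.inl v) : A))
  have hψ : Set.InjOn ψ S := by
    intro x hx y hy h
    obtain ⟨v, _, rfl⟩ := mem_image.1 (mem_coe.1 hx)
    obtain ⟨w, _, rfl⟩ := mem_image.1 (mem_coe.1 hy)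
    have h1 : φ v = φ w := Sum.inl.inj (congrArg Prod.fst h)
    have h2 : idx (φ v) ⟨v, rfl⟩ = idx (φ w) ⟨w, rfl⟩ := congrArg Prod.snd h
    have h3 : ∀ u (hv : φ v = u) (hw : φ w = u), idx u ⟨v, hv⟩ = idx u ⟨w, hw⟩ → v = w := by
      intro u hv hw h4
      exact congrArg Subtype.val ((idx u).injective h4)
    have h4 : v = w := by
      apply h3 (φ w) h1 rfl
      rw [← h2]
      have h5 : ∀ u (hv : φ v = u), u = φ v → idx u ⟨v, hv⟩ = idx (φ v) ⟨v, rfl⟩ := by
        rintro u hv rfl
        rfl
      exact h5 _ h1 h1.symm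
    rw [h4]
  obtain ⟨g, hg⟩ := Finset.exists_equiv_extend_of_card_eq (t := (univ : Finset (X × Fin t))) hA
    (s := S) (f := ψ) (subset_univ _) hψ
  let a : A → X := fun w => (g w).1.1
  have ha0 : ∀ v : V, a (Sum.inl (Sum.inl v)) = Sum.inl (φ v) := by
    intro v
    have := hg (Sum.inl (Sum.inl v)) (mem_image.2 ⟨v, mem_univ _, rfl⟩)
    show (g (Sum.inl (Sum.inl v))).1.1 = _
    rw [this]
    rfl
  have ha : ∀ x, (univ.filter (fun w => a w = x)).card = t := by
    intro x
    have h1 : univ.filter (fun w => a w = x) =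
        univ.image (fun l : Fin t => g.symm ⟨(x, l), mem_univ _⟩) := by
      ext w
      simp only [mem_filter, mem_univ, true_and, mem_image]
      constructor
      · intro h
        refine ⟨(g w).1.2, ?_⟩
        rw [Equiv.symm_apply_eq]
        apply Subtype.ext
        exact Prod.ext h.symm rfl
      · rintro ⟨l, rfl⟩
        show (g (g.symm _)).1.1 = x
        rw [Equiv.apply_symm_apply]
    rw [h1, card_image_of_injective, Finset.card_univ, Fintype.card_fin]
    intro l l' h
    have h2 := congrArg Subtype.val (g.symm.injective h)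
    exact congrArg Prod.snd h2
  -- the blocks
  let F : A → I := Sum.map f Prod.fst
  have hF : ∀ i, (univ.filter (fun w => F w = i)).card = t * k := by
    rintro (i | i)
    · have h1 : univ.filter (fun w => F w = Sum.inl i) =
          (univ.filter (fun w => f w = i)).map ⟨fun w => (Sum.inl w : A), Sum.inl_injective⟩ := by
        ext w
        simp only [mem_filter, mem_univ, true_and, mem_map, Function.Embedding.coeFn_mk]
        rcases w with w | w
        · constructor
          · intro h
            exact ⟨w, Sum.inl.inj h, rfl⟩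
          · rintro ⟨w', h, h'⟩
            have h2 : w' = w := Sum.inl.inj h'
            show (Sum.inl (f w) : I) = Sum.inl i
            rw [← h2, h]
        · constructor
          · intro h
            exact (Sum.inr_ne_inl h).elim
          · rintro ⟨w', h, h'⟩
            exact (Sum.inl_ne_inr h').elim
      rw [h1, card_map, ← card_fib]
      exact hf i
    · have h1 : univ.filter (fun w => F w = Sum.inr i) =
          (univ : Finset (Fin (t * k))).map ⟨fun w => (Sum.inr (i, w) : A), fun x y h =>
            (Prod.mk.inj (Sum.inr_injective h)).2⟩ := by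
        ext w
        simp only [mem_filter, mem_univ, true_and, mem_map, Function.Embedding.coeFn_mk]
        rcases w with w | ⟨w1, w2⟩
        · constructor
          · intro h
            exact (Sum.inl_ne_inr h).elim
          · rintro ⟨w', h'⟩
            exact (Sum.inr_ne_inl h').elim
        · constructor
          · intro h
            have h2 : w1 = i := Sum.inr.inj h
            exact ⟨w2, by rw [h2]⟩
          · rintro ⟨w', h'⟩
            have h2 : (i, w') = (w1, w2) := Sum.inr.inj h'
            show (Sum.inr w1 : I) = Sum.inr i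
            rw [(Prod.mk.inj h2).1]
      rw [h1, card_map, Finset.card_univ, Fintype.card_fin]
  obtain ⟨b, hb1, hb2⟩ := split_blocks F t k hF
  obtain ⟨γ, hγ1, hγ2⟩ := kon t a b ha hb2
  -- representatives
  have hσ : ∀ (j : Fin t) (x : X), ∃ w, a w = x ∧ γ w = j := by
    intro j x
    have h1 : ((univ.filter (fun w => a w = x)).image γ) = univ := by
      apply Finset.eq_univ_of_card
      rw [card_image_of_injOn, ha, Fintype.card_fin]
      intro w hw w' hw' h
      have h1 := (mem_filter.1 (mem_coe.1 hw)).2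
      have h2 := (mem_filter.1 (mem_coe.1 hw')).2
      exact hγ1 w w' (h1.trans h2.symm) h
    have h2 : j ∈ ((univ.filter (fun w => a w = x)).image γ) := by
      rw [h1]
      exact mem_univ _
    obtain ⟨w, hw, hw'⟩ := mem_image.1 h2
    exact ⟨w, (mem_filter.1 hw).2, hw'⟩
  choose σ hσ1 hσ2 using hσ
  have hσ3 : ∀ w, σ (γ w) (a w) = w := fun w => hγ1 _ _ (hσ1 _ _) (hσ2 _ _)
  let E : I ≃ Fin NH := finSumFinEquiv.trans (finCongr (Nat.add_sub_cancel' hN))
  have hcol : ∀ j : Fin t, ∃ c : X → Fin k, (∀ u v, H u v → c (Sum.inl u) ≠ c (Sum.inl v)) ∧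
      ∀ x y, F (σ j x) = F (σ j y) → c x = c y → x = y := by
    intro j
    have hle : ∀ i : I, (univ.filter (fun x => F (σ j x) = i)).card ≤ k := by
      intro i
      have h1 : ((univ.filter (fun x => F (σ j x) = i)).image (fun x => (b (σ j x)).2)).card ≤ k := by
        refine le_trans (card_le_univ _) ?_
        rw [Fintype.card_fin]
      rwa [card_image_of_injOn] at h1
      intro x hx y hy h
      have h2 := (mem_filter.1 (mem_coe.1 hx)).2
      have h3 := (mem_filter.1 (mem_coe.1 hy)).2
      have h4 : b (σ j x) = b (σ j y) := Prod.ext (by rw [hb1, hb1, h2, h3]) h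
      have h5 : σ j x = σ j y := hγ2 _ _ h4 (by rw [hσ2, hσ2])
      rw [← hσ1 j x, h5, hσ1]
    have hsum : ∑ i : I, (univ.filter (fun x => F (σ j x) = i)).card = ∑ i : I, k := by
      rw [← card_eq_sum_card_fiberwise (f := fun x => F (σ j x)) (s := univ) (t := univ)
        (fun x _ => mem_coe.2 (mem_univ _))]
      rw [Finset.card_univ, Finset.sum_const, Finset.card_univ, Fintype.card_congr E,
        Fintype.card_sum, Fintype.card_fin, Fintype.card_fin, hcard, smul_eq_mul, Nat.mul_comm]
    have heq := (Finset.sum_eq_sum_iff_of_le (fun i _ => hle i)).1 hsum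
    obtain ⟨c, hc1, hc2⟩ := hH (fun x => E (F (σ j x))) (by
      intro i
      rw [card_fib]
      rw [← heq (E.symm i) (mem_univ _)]
      congr 1
      ext x
      simp only [mem_filter, mem_univ, true_and]
      rw [← Equiv.eq_symm_apply])
    exact ⟨c, hc1, fun x y h h' => hc2 x y (by show E _ = E _; rw [h]) h'⟩
  choose c hc1 hc2 using hcol
  refine ⟨fun w => finProdFinEquiv (γ (Sum.inl w), c (γ (Sum.inl w)) (a (Sum.inl w))), ?_, ?_⟩
  · intro u v huv h
    have h1 := finProdFinEquiv.injective h
    rw [Prod.mk.injEq] at h1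
    obtain ⟨h2, h3⟩ := h1
    rw [h2, ha0, ha0] at h3
    obtain ⟨hne, h4 | h4⟩ := hG u v huv
    · apply hne
      have h5 : a (Sum.inl (Sum.inl u)) = a (Sum.inl (Sum.inl v)) := by rw [ha0, ha0, h4]
      exact Sum.inl_injective (Sum.inl_injective (hγ1 _ _ h5 h2))
    · exact hc1 _ _ _ h4 h3
  · intro x y hxy h
    have h1 := finProdFinEquiv.injective h
    rw [Prod.mk.injEq] at h1
    obtain ⟨h2, h3⟩ := h1
    rw [h2] at h3
    have h4 := hc2 _ _ _ (by
      rw [← h2, hσ3, h2, hσ3]
      show Sum.inl (f x) = Sum.inl (f y)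
      rw [hxy]) h3
    exact Sum.inl_injective (hγ1 _ _ h4 h2)

end Pool.Agent.H57.SD
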