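import Pool.Agent.H98.SD.TargetsK
import Pool.Agent.H7.HD.All

/-!
Rows SEK, PFK of the board SD: sets which are not split by definable sets; functions to the power
set of `L`; points of cofinality `μ` of a regular cardinal `K > L`.
-/

open Ordinal Cardinal Order Set
open scoped ZFSet

universe u

namespace Pool.Agent.H57.SD

open _root_.HD _root_.HD.SD

lemma pos_monoK {μ ρ : Ordinal.{u}} {X Y : Set Ordinal.{u}} (h : ∀ b < ρ, b ∈ X → b ∈ Y)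
    (hX : Pos μ ρ X) : Pos μ ρ Y := fun C hC => by
  obtain ⟨b, hb, hbC, hbX, hc⟩ := hX C hC
  exact ⟨b, hb, hbC, h b hb hbX, hc⟩

theorem pf_SEK (h1 : T_ODX.{u}) : T_SEK.{u} := by
  intro en hen K hK hK0 μ y X hX A hA
  obtain ⟨c, hc⟩ := (h1 en hen y K.ord).2.1 A hA
  refine (hX c).imp (mt (pos_monoK ?_)) (mt (pos_monoK ?_))
  · rintro b hb ⟨h2, h3⟩
    exact ⟨h2, (hc b hb).2 h3⟩
  · rintro b hb ⟨h2, h3⟩
    exact ⟨h2, fun h4 => h3 ((hc b hb).1 h4)⟩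

/-- the set of the `b` with `a ∈ Sc2 en y c b` does not split `X` -/
lemma ind2K (h2 : T_COM.{u}) (h3 : T_DXS.{u}) {en : Ordinal.{u} → ZFSet.{u}} (hen : EN en)
    {K : Cardinal.{u}} {μ : Ordinal.{u}} {X : Set Ordinal.{u}} {y : ZFSet.{u}}
    (hX : IndK en μ K y X) (c a : Ordinal.{u}) :
    ¬ Pos μ K.ord {b | b ∈ X ∧ a ∈ Sc2 en y c b} ∨
      ¬ Pos μ K.ord {b | b ∈ X ∧ a ∉ Sc2 en y c b} := by
  have hP : DX fun x w => w 1 ∈ Sc2 en x (w 2) (w 0) :=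
    (h3 en hen).2.ren (fun n => if n = 0 then 1 else if n = 1 then 2 else 0)
  obtain ⟨c', hc'⟩ := h2 en hen _ hP (succ y.rank) K.ord (cns a (cns c fun _ => 0))
  have hyV : y ∈ V_ (succ y.rank) := by
    rw [ZFSet.mem_vonNeumann]
    exact lt_succ y.rank
  have h4 := hc' y hyV
  refine (hX c').imp (mt (pos_monoK ?_)) (mt (pos_monoK ?_))
  · rintro b hb ⟨h5, h6⟩
    exact ⟨h5, (h4 b).2 ⟨hb, h6⟩⟩
  · rintro b hb ⟨h5, h6⟩
    exact ⟨h5, fun h7 => h6 ((h4 b).1 h7).2⟩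

theorem pf_PFK (h1 : T_ODX.{u}) (h2 : T_COM.{u}) (h3 : T_DXS.{u}) : T_PFK.{u} := by
  intro en hen K L hreg hL hLK μ y X hX F hF hf
  obtain ⟨c, hc⟩ := (h1 en hen y K.ord).2.2.2 F hF
  have hLκ : L.ord < K.ord := ord_lt_ord.2 hLK
  obtain ⟨G, hG⟩ : ∃ G : Ordinal.{u} → Ordinal.{u} → Prop,
    G = fun a b => ∃ z, ZFSet.pair b.toZFSet z ∈ F ∧ a.toZFSet ∈ z := ⟨_, rfl⟩
  have hGc : ∀ a < L.ord, ∀ b < K.ord, (a ∈ Sc2 en y c b ↔ G a b) := by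
    intro a ha b hb
    rw [hG]
    exact hc a (ha.trans hLκ) b hb
  obtain ⟨Z, hZ⟩ : ∃ Z : Set Ordinal.{u},
    Z = {a | ¬ Pos μ K.ord {b | b ∈ X ∧ ¬ G a b}} := ⟨_, rfl⟩
  -- the null sets
  have hN : ∀ a < L.ord, ¬ Pos μ K.ord {b | b ∈ X ∧ ¬ (G a b ↔ a ∈ Z)} := by
    intro a ha
    by_cases haZ : a ∈ Z
    · have h4 : ¬ Pos μ K.ord {b | b ∈ X ∧ ¬ G a b} := by
        rw [hZ] at haZ
        exact haZ
      refine mt (pos_monoK ?_) h4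
      rintro b - ⟨h5, h6⟩
      exact ⟨h5, fun h7 => h6 ⟨fun _ => haZ, fun _ => h7⟩⟩
    · have h4 : Pos μ K.ord {b | b ∈ X ∧ ¬ G a b} := by
        by_contra h5
        exact haZ (by rw [hZ]; exact h5)
      rcases ind2K h2 h3 hen hX c a with h5 | h5
      · refine mt (pos_monoK ?_) h5
        rintro b hb ⟨h6, h7⟩
        refine ⟨h6, (hGc a ha b hb).2 ?_⟩
        by_contra h8
        exact h7 ⟨fun h9 => absurd h9 h8, fun h9 => absurd h9 haZ⟩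
      · exfalso
        refine h5 (pos_monoK ?_ h4)
        rintro b hb ⟨h6, h7⟩
        exact ⟨h6, fun h8 => h7 ((hGc a ha b hb).1 h8)⟩
  have hU := All.va μ K.ord (by rw [hreg.cof_ord]; exact hL.trans hLK) L.ord
    (by rw [hreg.cof_ord, card_ord]; exact hLK)
    (fun a => {b | b ∈ X ∧ ¬ (G a b ↔ a ∈ Z)}) hN
  refine ⟨os L.ord Z, mt (pos_monoK ?_) hU⟩
  rintro b hb ⟨hbX, hbF⟩
  by_contra hcon
  have hall : ∀ a < L.ord, (G a b ↔ a ∈ Z) := by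
    intro a ha
    by_contra h4
    exact hcon ⟨a, ha, hbX, h4⟩
  obtain ⟨w, hw, hw'⟩ := hf.2 b.toZFSet (toZFSet_mem_toZFSet_iff.2 hb)
  have hwL : w ⊆ L.ord.toZFSet := by
    have h4 := hf.1 hw
    rw [ZFSet.pair_mem_prod] at h4
    exact ZFSet.mem_powerset.1 h4.2
  refine hbF ?_
  have hwz : w = os L.ord Z := by
    ext t
    constructor
    · intro ht
      obtain ⟨a, ha, rfl⟩ := mem_toZFSet_iff.1 (hwL ht)
      rw [ord_mem_os]
      refine ⟨ha, (hall a ha).1 ?_⟩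
      rw [hG]
      exact ⟨w, hw, ht⟩
    · intro ht
      obtain ⟨a, ha, haZ, rfl⟩ := mem_os.1 ht
      have h5 := (hall a ha).2 haZ
      rw [hG] at h5
      obtain ⟨z', h6, h7⟩ := h5
      rwa [hw' z' h6] at h7
  rw [← hwz]
  exact hw

end Pool.Agent.H57.SD
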