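import Mathlib

/-! König: a regular bipartite multigraph (vertex classes `A`, `B`, edges `W`) is properly edge
colourable. -/

set_option autoImplicit false

namespace Pool.Agent.H57.SD

open Finset

/-- a system of representatives for both sides -/
theorem kon_one {W A B : Type} [Fintype W] [DecidableEq W] [Fintype A] [DecidableEq A] [Fintype B]
    [DecidableEq B] (a : W → A) (b : W → B) (t : ℕ)
    (ha : ∀ x, (univ.filter (fun w => a w = x)).card = t + 1)
    (hb : ∀ x, (univ.filter (fun w => b w = x)).card = t + 1) :
    ∃ s : B → W, (∀ y, b (s y) = y) ∧ Function.Bijective (fun y => a (s y)) := by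
  classical
  let N : B → Finset A := fun y => (univ.filter (fun w => b w = y)).image a
  have hall : ∀ X : Finset B, X.card ≤ (X.biUnion N).card := by
    intro X
    have h1 : (univ.filter (fun w => b w ∈ X)).card = X.card * (t + 1) := by
      rw [card_eq_sum_card_fiberwise (f := b) (t := X)]
      · rw [sum_const_nat (m := t + 1)]
        intro y hy
        rw [← hb y]
        congr 1
        ext w
        simp only [mem_filter, mem_univ, true_and]
        constructor
        · exact fun h => h.2
        · exact fun h => ⟨h ▸ hy, h⟩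
      · intro w hw
        exact (mem_filter.1 (mem_coe.1 hw)).2
    have h2 : (univ.filter (fun w => a w ∈ X.biUnion N)).card = (X.biUnion N).card * (t + 1) := by
      rw [card_eq_sum_card_fiberwise (f := a) (t := X.biUnion N)]
      · rw [sum_const_nat (m := t + 1)]
        intro y hy
        rw [← ha y]
        congr 1
        ext w
        simp only [mem_filter, mem_univ, true_and]
        constructor
        · exact fun h => h.2
        · exact fun h => ⟨h ▸ hy, h⟩
      · intro w hw
        exact (mem_filter.1 (mem_coe.1 hw)).2
    have h3 : (univ.filter (fun w => b w ∈ X)).card ≤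
        (univ.filter (fun w => a w ∈ X.biUnion N)).card := by
      apply card_le_card
      intro w hw
      rw [mem_filter] at hw ⊢
      refine ⟨mem_univ _, mem_biUnion.2 ⟨b w, hw.2, ?_⟩⟩
      exact mem_image.2 ⟨w, mem_filter.2 ⟨mem_univ _, rfl⟩, rfl⟩
    rw [h1, h2] at h3
    exact Nat.le_of_mul_le_mul_right h3 (Nat.succ_pos t)
  obtain ⟨h, hinj, hmem⟩ := (Finset.all_card_le_biUnion_card_iff_exists_injective N).1 hall
  have hs : ∀ y, ∃ w, b w = y ∧ a w = h y := by
    intro y
    obtain ⟨w, hw, hw'⟩ := mem_image.1 (hmem y)
    exact ⟨w, (mem_filter.1 hw).2, hw'⟩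
  choose s hs1 hs2 using hs
  have hW1 : Fintype.card W = Fintype.card A * (t + 1) := by
    rw [← Finset.card_univ, card_eq_sum_card_fiberwise (f := a) (t := univ)]
    · rw [sum_const_nat (m := t + 1), Finset.card_univ]
      exact fun y _ => ha y
    · intro w _
      exact mem_coe.2 (mem_univ _)
  have hW2 : Fintype.card W = Fintype.card B * (t + 1) := by
    rw [← Finset.card_univ, card_eq_sum_card_fiberwise (f := b) (t := univ)]
    · rw [sum_const_nat (m := t + 1), Finset.card_univ]
      exact fun y _ => hb y
    · intro w _
      exact mem_coe.2 (mem_univ _)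
  refine ⟨s, hs1, ?_⟩
  rw [Fintype.bijective_iff_injective_and_card]
  constructor
  · intro y y' hy
    simp only [hs2] at hy
    exact hinj hy
  · rw [hW1] at hW2
    exact (Nat.eq_of_mul_eq_mul_right (Nat.succ_pos t) hW2).symm

/-- König's edge colouring theorem for regular bipartite multigraphs -/
theorem kon (t : ℕ) : ∀ {W A B : Type} [Fintype W] [DecidableEq W] [Fintype A] [DecidableEq A]
    [Fintype B] [DecidableEq B] (a : W → A) (b : W → B)
    (_ : ∀ x, (univ.filter (fun w => a w = x)).card = t)
    (_ : ∀ x, (univ.filter (fun w => b w = x)).card = t),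
    ∃ g : W → Fin t, (∀ x y, a x = a y → g x = g y → x = y) ∧
      ∀ x y, b x = b y → g x = g y → x = y := by
  classical
  induction t with
  | zero =>
    intro W A B _ _ _ _ _ _ a b ha hb
    have hW : ∀ w : W, False := by
      intro w
      have := ha (a w)
      rw [card_eq_zero] at this
      have h2 : w ∈ (univ.filter (fun v => a v = a w)) := mem_filter.2 ⟨mem_univ _, rfl⟩
      rw [this] at h2
      exact absurd h2 (notMem_empty _)
    exact ⟨fun w => (hW w).elim, fun x => (hW x).elim, fun x => (hW x).elim⟩
  | succ t ih =>
    intro W A B _ _ _ _ _ _ a b ha hb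
    obtain ⟨s, hs1, hs2⟩ := kon_one a b t ha hb
    let W' := {w : W // w ∉ Set.range s}
    have key : ∀ {C : Type} [DecidableEq C] (c : W → C) (x : C)
        (_ : (univ.filter (fun w => c w = x)).card = t + 1) (_ : ∃! y, c (s y) = x),
        (univ.filter (fun w : W' => c w.1 = x)).card = t := by
      intro C _ c x hc hx
      obtain ⟨y, hy, hy'⟩ := hx
      have h1 : (univ.filter (fun w : W' => c w.1 = x)).map (Function.Embedding.subtype _) =
          (univ.filter (fun w => c w = x)).erase (s y) := by
        ext w
        simp only [mem_map, mem_filter, mem_univ, true_and, Function.Embedding.coe_subtype,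
          mem_erase]
        constructor
        · rintro ⟨v, hv, rfl⟩
          exact ⟨fun h => v.2 ⟨y, h.symm⟩, hv⟩
        · rintro ⟨h1, h2⟩
          refine ⟨⟨w, ?_⟩, h2, rfl⟩
          rintro ⟨z, hz⟩
          apply h1
          rw [← hz, hy' z (by show c (s z) = x; rw [hz]; exact h2)]
      have hm : s y ∈ univ.filter (fun w => c w = x) := by
        rw [mem_filter]
        exact ⟨mem_univ _, hy⟩
      have h2 := card_erase_of_mem hm
      rw [hc] at h2
      have h3 := congrArg card h1
      rw [card_map, h2] at h3
      exact h3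
    obtain ⟨g, hg1, hg2⟩ := ih (W := W') (fun w => a w.1) (fun w => b w.1)
      (fun x => key a x (ha x) (by
        obtain ⟨y, hy⟩ := hs2.2 x
        exact ⟨y, hy, fun z hz => hs2.1 (by show a (s z) = a (s y); rw [hz]; exact hy.symm)⟩))
      (fun x => key b x (hb x) ⟨x, hs1 x, fun z hz => by rw [← hz]; exact (hs1 z).symm ▸ rfl⟩)
    have hrep : ∀ x y : W, x ∈ Set.range s → y ∈ Set.range s → (a x = a y ∨ b x = b y) → x = y := by
      rintro x y ⟨u, rfl⟩ ⟨v, rfl⟩ h
      rcases h with h | h
      · rw [hs2.1 h]
      · rw [hs1, hs1] at h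
        rw [h]
    refine ⟨fun w => if h : w ∈ Set.range s then Fin.last t else (g ⟨w, h⟩).castSucc, ?_, ?_⟩
    · intro x y hxy h
      by_cases hx : x ∈ Set.range s <;> by_cases hy : y ∈ Set.range s
      · exact hrep x y hx hy (Or.inl hxy)
      · simp only [dif_pos hx, dif_neg hy] at h
        exact absurd h.symm (Fin.castSucc_ne_last _)
      · simp only [dif_neg hx, dif_pos hy] at h
        exact absurd h (Fin.castSucc_ne_last _)
      · simp only [dif_neg hx, dif_neg hy] at h
        exact congrArg Subtype.val (hg1 ⟨x, hx⟩ ⟨y, hy⟩ hxy (Fin.castSucc_injective t h))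
    · intro x y hxy h
      by_cases hx : x ∈ Set.range s <;> by_cases hy : y ∈ Set.range s
      · exact hrep x y hx hy (Or.inr hxy)
      · simp only [dif_pos hx, dif_neg hy] at h
        exact absurd h.symm (Fin.castSucc_ne_last _)
      · simp only [dif_neg hx, dif_pos hy] at h
        exact absurd h (Fin.castSucc_ne_last _)
      · simp only [dif_neg hx, dif_neg hy] at h
        exact congrArg Subtype.val (hg2 ⟨x, hx⟩ ⟨y, hy⟩ hxy (Fin.castSucc_injective t h))

end Pool.Agent.H57.SD
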